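import Mathlib

set_option autoImplicit false

open Finset Equiv

namespace Pool.Agent.Results.MP_433145_co.Cubic

/-- The position permutation `i_j ↦ i_{S[k](j)}` on `I = {i_1 < … < i_k}`, identity off `I`. -/
def mv {n : ℕ} (S : (k : ℕ) → Perm (Fin k)) (I : Finset (Fin n)) : Perm (Fin n) :=
  (S I.card).extendDomain (I.orderIsoOfFin rfl).toEquiv

/-- `guess S π r` is the guess number `r + 1` (a map from positions to entries). -/
def guess {n : ℕ} (S : (k : ℕ) → Perm (Fin k)) (π : Perm (Fin n)) : ℕ → Perm (Fin n)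
  | 0 => 1
  | r + 1 => guess S π r * (mv S (univ.filter (fun i => guess S π r i ≠ π i)))⁻¹

/-- Number of secrets found after exactly three guesses. -/
def a3 (S : (k : ℕ) → Perm (Fin k)) (n : ℕ) : ℕ :=
  (univ.filter (fun π : Perm (Fin n) =>
    guess S π 0 ≠ π ∧ guess S π 1 ≠ π ∧ guess S π 2 = π)).card

section
variable {n : ℕ}

structure Sys (σ : Finset (Fin n) → Perm (Fin n)) : Prop where
  off : ∀ I x, x ∉ I → σ I x = x
  der : ∀ I x, 2 ≤ I.card → x ∈ I → σ I x ≠ x

lemma Sys.mem {σ : Finset (Fin n) → Perm (Fin n)} (h : Sys σ) {I : Finset (Fin n)} {x : Fin n}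
    (hx : x ∈ I) : σ I x ∈ I := by
  by_contra hc
  have := (σ I).injective (h.off I _ hc)
  rw [this] at hc
  exact hc hx

lemma mv_apply (S : (k : ℕ) → Perm (Fin k)) (I : Finset (Fin n)) (j : Fin I.card) :
    mv S I (I.orderEmbOfFin rfl j) = I.orderEmbOfFin rfl (S I.card j) :=
  Perm.extendDomain_apply_image (S I.card) (I.orderIsoOfFin rfl).toEquiv j

lemma ex_idx (I : Finset (Fin n)) {x : Fin n} (hx : x ∈ I) :
    ∃ j, I.orderEmbOfFin rfl j = x := by
  have : x ∈ Set.range (I.orderEmbOfFin rfl) := by rw [range_orderEmbOfFin]; exact hx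
  exact this

lemma sys_mv (S : (k : ℕ) → Perm (Fin k)) (hS : ∀ k, 2 ≤ k → k ≤ n → ∀ j, S k j ≠ j) :
    Sys (mv S : Finset (Fin n) → Perm (Fin n)) := by
  constructor
  · intro I x hx
    exact Perm.extendDomain_apply_not_subtype _ _ hx
  · intro I x h2 hx
    obtain ⟨j, rfl⟩ := ex_idx I hx
    rw [mv_apply]
    intro h
    exact hS _ h2 (by simpa using card_le_univ I) j ((I.orderEmbOfFin rfl).injective h)

def All (K : Finset (Fin n)) : Finset (Finset (Fin n)) := K.powerset.filter (fun I => 2 ≤ I.card)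

def Gd (σ : Finset (Fin n) → Perm (Fin n)) (K I : Finset (Fin n)) : Prop :=
  ∀ p ∈ K, σ I (σ K p) ≠ p

instance (σ : Finset (Fin n) → Perm (Fin n)) (K : Finset (Fin n)) : DecidablePred (Gd σ K) :=
  fun I => by unfold Gd; infer_instance

lemma fixinv (g : Perm (Fin n)) (x : Fin n) : g⁻¹ x = x ↔ g x = x := by
  rw [Perm.inv_eq_iff_eq, eq_comm]

lemma key {σ : Finset (Fin n) → Perm (Fin n)} (h : Sys σ) (K I : Finset (Fin n)) (h1 : I ⊆ K)
    (h2 : 2 ≤ I.card) (h3 : Gd σ K I) :
    univ.filter (fun i => i ≠ ((σ K)⁻¹ * (σ I)⁻¹) i) = K ∧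
    univ.filter (fun i => (σ K)⁻¹ i ≠ ((σ K)⁻¹ * (σ I)⁻¹) i) = I := by
  constructor
  · ext i
    rw [mem_filter_univ, Perm.mul_apply]
    constructor
    · intro h4
      by_contra hc
      rw [(fixinv _ _).2 (h.off I i (fun hi => hc (h1 hi))), (fixinv _ _).2 (h.off K i hc)] at h4
      exact h4 rfl
    · intro hi hc
      rw [eq_comm, Perm.inv_eq_iff_eq, Perm.inv_eq_iff_eq] at hc
      exact h3 i hi hc.symm
  · ext i
    rw [mem_filter_univ, Perm.mul_apply, ne_eq, EmbeddingLike.apply_eq_iff_eq, eq_comm, fixinv]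
    exact ⟨fun h4 => by_contra (fun hc => h4 (h.off I i hc)), h.der I i h2⟩

lemma g1 (S : (k : ℕ) → Perm (Fin k)) (π : Perm (Fin n)) :
    guess S π 1 = (mv S (univ.filter (fun i => i ≠ π i)))⁻¹ := by
  show 1 * _ = _
  rw [one_mul]; rfl

lemma g2 (S : (k : ℕ) → Perm (Fin k)) (π : Perm (Fin n)) :
    guess S π 2 = (mv S (univ.filter (fun i => i ≠ π i)))⁻¹ * (mv S (univ.filter
      (fun i => (mv S (univ.filter (fun i => i ≠ π i)))⁻¹ i ≠ π i)))⁻¹ := by
  show guess S π 1 * (mv S (univ.filter (fun i => guess S π 1 i ≠ π i)))⁻¹ = _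
  rw [g1]

lemma a3_eq (S : (k : ℕ) → Perm (Fin k)) (h : Sys (mv S : Finset (Fin n) → Perm (Fin n))) :
    a3 S n = ∑ K : Finset (Fin n), ((All K).filter (Gd (mv S) K)).card := by
  rw [← card_sigma]
  unfold a3
  refine card_nbij' (fun π => ⟨univ.filter (fun i => i ≠ π i),
      univ.filter (fun i => (mv S (univ.filter (fun i => i ≠ π i)))⁻¹ i ≠ π i)⟩)
    (fun x => (mv S x.1)⁻¹ * (mv S x.2)⁻¹) ?_ ?_ ?_ ?_
  · intro π hπ
    rw [mem_coe, mem_filter_univ, g1, g2] at hπ
    obtain ⟨-, h1, h2⟩ := hπ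
    set K := univ.filter (fun i => i ≠ π i) with hK
    set I := univ.filter (fun i => (mv S K)⁻¹ i ≠ π i) with hI
    simp only [coe_sigma, coe_univ, Set.mem_sigma_iff, Set.mem_univ, true_and, All, mem_coe,
      mem_filter, mem_powerset]
    refine ⟨⟨?_, ?_⟩, ?_⟩
    · intro i hi
      by_contra hc
      have h3 := (fixinv _ _).2 (h.off K i hc)
      simp only [hK, mem_filter, mem_univ, true_and, not_not] at hc
      exact (mem_filter.1 hi).2 (h3.trans hc)
    · have h3 : I = (mv S K * π).support := by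
        ext i
        simp only [hI, mem_filter, mem_univ, true_and, Perm.mem_support, Perm.mul_apply, ne_eq,
          Perm.inv_eq_iff_eq]
        rw [eq_comm]
      show 2 ≤ I.card
      rw [h3]
      refine Perm.two_le_card_support_of_ne_one (fun hc => h1 ?_)
      exact inv_eq_of_mul_eq_one_right hc
    · intro p hp hc
      have h3 : π p = p := by
        rw [← h2, Perm.mul_apply, Perm.inv_eq_iff_eq, Perm.inv_eq_iff_eq]
        exact hc.symm
      exact (mem_filter.1 hp).2 h3.symm
  · rintro ⟨K, I⟩ hx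
    simp only [coe_sigma, coe_univ, Set.mem_sigma_iff, Set.mem_univ, true_and, All, mem_coe,
      mem_filter, mem_powerset] at hx
    obtain ⟨⟨h1, h2⟩, h3⟩ := hx
    obtain ⟨k1, k2⟩ := key h K I h1 h2 h3
    obtain ⟨i, hi⟩ := card_pos.1 (show 0 < I.card by omega)
    rw [mem_coe, mem_filter_univ, g1, g2]
    simp only
    rw [k1, k2]
    refine ⟨fun hc => ?_, fun hc => ?_, rfl⟩
    · have := h1 hi
      rw [← k1, ← hc, mem_filter_univ] at this
      exact this rfl
    · rw [← k2, ← hc] at hi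
      simp at hi
  · intro π hπ
    rw [mem_coe, mem_filter_univ, g1, g2] at hπ
    exact hπ.2.2
  · rintro ⟨K, I⟩ hx
    simp only [coe_sigma, coe_univ, Set.mem_sigma_iff, Set.mem_univ, true_and, All, mem_coe,
      mem_filter, mem_powerset] at hx
    obtain ⟨⟨h1, h2⟩, h3⟩ := hx
    obtain ⟨k1, k2⟩ := key h K I h1 h2 h3
    simp only
    rw [k1, k2]

lemma two_swap {σ : Finset (Fin n) → Perm (Fin n)} (h : Sys σ) {p q : Fin n} (hpq : p ≠ q) :
    σ {p, q} q = p := by
  have h1 := h.mem (I := {p, q}) (x := q) (by simp)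
  have h2 := h.der {p, q} q (by rw [card_pair hpq]) (by simp)
  simp only [mem_insert, mem_singleton] at h1
  tauto

lemma bad_ge {σ : Finset (Fin n) → Perm (Fin n)} (h : Sys σ) (K : Finset (Fin n))
    (hK : 3 ≤ K.card) : K.card ≤ ((All K).filter (fun I => ¬ Gd σ K I)).card := by
  have hr : ∀ p : Fin n, ∃ r, r ∈ K ∧ r ≠ p ∧ r ≠ σ K p := by
    intro p
    have h1 : ({p, σ K p} : Finset (Fin n)).card < K.card := lt_of_le_of_lt card_le_two (by omega)
    obtain ⟨r, h2, h3⟩ := exists_mem_notMem_of_card_lt_card h1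
    exact ⟨r, h2, by simpa [not_or] using h3⟩
  choose r hr1 hr2 hr3 using hr
  have hd : ∀ p ∈ K, σ K p ≠ p := fun p hp => h.der K p (by omega) hp
  refine card_le_card_of_injOn (fun p => if σ K (σ K p) = p ∧ σ K p < p then {p, σ K p, r p}
    else {p, σ K p}) ?_ ?_
  · intro p hp
    have hp' : p ∈ K := hp
    have h1 := h.mem hp'
    have h2 := hd p hp'
    rw [mem_coe, mem_filter, All, mem_filter, mem_powerset]
    simp only
    split_ifs with hc
    · have h3 : ({p, σ K p, r p} : Finset (Fin n)).card = 3 :=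
        card_eq_three.2 ⟨_, _, _, h2.symm, (hr2 p).symm, (hr3 p).symm, rfl⟩
      refine ⟨⟨by simp [subset_iff, hp', h1, hr1], by omega⟩, fun hg => ?_⟩
      have g1 := hg p hp'
      have g2 := hg _ h1
      rw [hc.1] at g2
      have m1 := h.mem (I := {p, σ K p, r p}) (x := p) (by simp)
      have m2 := h.mem (I := {p, σ K p, r p}) (x := σ K p) (by simp)
      have d1 := h.der {p, σ K p, r p} p (by omega) (by simp)
      have d2 := h.der {p, σ K p, r p} (σ K p) (by omega) (by simp)
      simp only [mem_insert, mem_singleton, g1, g2, d1, d2, false_or] at m1 m2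
      exact h2 ((σ _).injective (m2.trans m1.symm))
    · refine ⟨⟨by simp [subset_iff, hp', h1], by rw [card_pair h2.symm]⟩, fun hg => ?_⟩
      exact hg p hp' (two_swap h h2.symm)
  · intro p hp q hq e
    have h2 := hd p hp
    have h3 := hd q hq
    have c3 : ∀ p ∈ K, ({p, σ K p, r p} : Finset (Fin n)).card = 3 := fun p hp =>
      card_eq_three.2 ⟨_, _, _, (hd p hp).symm, (hr2 p).symm, (hr3 p).symm, rfl⟩
    by_contra hne
    simp only at e
    split_ifs at e with c1 c2 c2
    · have m1 : p ∈ ({q, σ K q, r q} : Finset (Fin n)) := by rw [← e]; simp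
      have m2 : σ K p ∈ ({q, σ K q, r q} : Finset (Fin n)) := by rw [← e]; simp
      simp only [mem_insert, mem_singleton, hne, false_or, EmbeddingLike.apply_eq_iff_eq] at m1 m2
      have n1 : p ≠ σ K q := by
        intro hh
        have := c1.2
        rw [hh, c2.1] at this
        exact lt_asymm this c2.2
      have n2 : σ K p ≠ q := fun hh => n1 (by rw [← hh, c1.1])
      simp only [n1, n2, false_or] at m1 m2
      exact h2 (m2.trans m1.symm)
    · have := c3 p hp
      rw [e] at this
      have := card_le_two (a := q) (b := σ K q)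
      omega
    · have := c3 q hq
      rw [← e] at this
      have := card_le_two (a := p) (b := σ K p)
      omega
    · have m1 : p ∈ ({q, σ K q} : Finset (Fin n)) := by rw [← e]; simp
      have m2 : q ∈ ({p, σ K p} : Finset (Fin n)) := by rw [e]; simp
      simp only [mem_insert, mem_singleton, hne, Ne.symm hne, false_or] at m1 m2
      rcases lt_or_gt_of_ne hne with hl | hl
      · exact c2 ⟨by rw [← m1, ← m2], by rw [← m1]; exact hl⟩
      · exact c1 ⟨by rw [← m2, ← m1], by rw [← m2]; exact hl⟩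

lemma rot_val {k : ℕ} (j : Fin k) :
    (finRotate k j).val = if j.val + 1 = k then 0 else j.val + 1 := by
  cases k with
  | zero => exact j.elim0
  | succ m =>
    rw [coe_finRotate]
    refine if_congr ?_ rfl rfl
    rw [Fin.ext_iff, Fin.val_last]
    omega

lemma succ_prop (I : Finset (Fin n)) {p : Fin n} (hp : p ∈ I) :
    (p < mv finRotate I p ∧ ∀ r ∈ I, r ≤ p ∨ mv finRotate I p ≤ r) ∨
    (∀ r ∈ I, r ≤ p ∧ mv finRotate I p ≤ r) := by
  obtain ⟨j, rfl⟩ := ex_idx I hp
  rw [mv_apply]
  have hv := rot_val j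
  split_ifs at hv with hc
  · right
    intro r hr
    obtain ⟨i, rfl⟩ := ex_idx I hr
    simp only [OrderEmbedding.le_iff_le, Fin.le_def]
    omega
  · left
    refine ⟨by simp only [OrderEmbedding.lt_iff_lt, Fin.lt_def]; omega, fun r hr => ?_⟩
    obtain ⟨i, rfl⟩ := ex_idx I hr
    simp only [OrderEmbedding.le_iff_le, Fin.le_def]
    omega

lemma sys_cs : Sys (mv finRotate : Finset (Fin n) → Perm (Fin n)) := by
  refine sys_mv _ (fun k hk _ j h => ?_)
  have hv := rot_val j
  rw [h] at hv
  split_ifs at hv <;> omega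

lemma bad_cs (K : Finset (Fin n)) :
    ((All K).filter (fun I => ¬ Gd (mv finRotate) K I)).card ≤ K.card := by
  refine le_trans (card_le_card ?_) (card_image_le (f := fun p => {p, mv finRotate K p}))
  intro I hI
  simp only [All, mem_filter, mem_powerset, Gd, not_forall, not_not] at hI
  obtain ⟨⟨h1, h2⟩, p, hp, h3⟩ := hI
  refine mem_image.2 ⟨p, hp, ?_⟩
  have hK := card_le_card h1
  have d1 := sys_cs.der K p (by omega) hp
  have hq : mv finRotate K p ∈ I := by
    by_contra hc
    exact d1 ((sys_cs.off I _ hc).symm.trans h3)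
  have hpI : p ∈ I := h3 ▸ sys_cs.mem hq
  have s1 := succ_prop K hp
  have s2 := succ_prop I hq
  rw [h3] at s2
  generalize mv finRotate K p = q at *
  ext r
  simp only [mem_insert, mem_singleton]
  refine ⟨by rintro (rfl | rfl) <;> assumption, fun hr => ?_⟩
  have hrK := h1 hr
  rcases s1 with ⟨a1, a2⟩ | a2 <;> rcases s2 with ⟨b1, b2⟩ | b2 <;>
    have a3 := a2 r hrK <;> have b3 := b2 r hr <;> have a4 := a2 q (h1 hq) <;>
    have b4 := b2 p hpI <;> omega

end

theorem result (n : ℕ) (_hn : 4 ≤ n) (S : (k : ℕ) → Perm (Fin k))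
    (hS : ∀ k, 2 ≤ k → k ≤ n → ∀ j, S k j ≠ j) : a3 S n ≤ a3 finRotate n := by
  have h := sys_mv S hS
  rw [a3_eq S h, a3_eq _ sys_cs]
  refine sum_le_sum (fun K _ => ?_)
  have e1 := card_filter_add_card_filter_not (s := All K) (Gd (mv S) K)
  have e2 := card_filter_add_card_filter_not (s := All K) (Gd (mv finRotate) K)
  rcases Nat.lt_or_ge K.card 3 with h3 | h3
  · have : (All K).filter (Gd (mv S) K) = ∅ := by
      refine filter_eq_empty_iff.2 (fun I hI hg => ?_)
      simp only [All, mem_filter, mem_powerset] at hI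
      have e : I = K := eq_of_subset_of_card_le hI.1 (by omega)
      subst e
      obtain ⟨p, q, hpq, rfl⟩ := card_eq_two.1 (show I.card = 2 by omega)
      refine hg q (by simp) ?_
      rw [two_swap h hpq, pair_comm, two_swap h hpq.symm]
    rw [this]; simp
  · have := bad_ge h K h3
    have := bad_cs K
    omega

end Pool.Agent.Results.MP_433145_co.Cubic
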